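import Mathlib

/-!
A family of almost symmetric numerical semigroups with at most eight minimal generators and
unbounded type.  For N at least 1 put d2 = 2N+1, d1 = N d2 + N, g = N d1 + N, and let S be the set of
all h g + a d1 + b d2 + c with 0 ≤ a, b, c ≤ h (the semigroup generated by the eight numbers
g + e1 d1 + e2 d2 + e3 with e1, e2, e3 in {0, 1}).
-/

set_option autoImplicit false

namespace Pool.Agent.Lib.MP_d25c28_al

/-- the value of the digit vector (h, a, b, c) -/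
def val (N h a b c : ℤ) : ℤ :=
  h * (N * (N * (2 * N + 1) + N) + N) + a * (N * (2 * N + 1) + N) + b * (2 * N + 1) + c

/-- the cone over the cube -/
def InQ (h a b c : ℤ) : Prop := 0 ≤ a ∧ a ≤ h ∧ 0 ≤ b ∧ b ≤ h ∧ 0 ≤ c ∧ c ≤ h

/-- membership in the semigroup -/
def InS (N x : ℤ) : Prop := ∃ h a b c : ℤ, InQ h a b c ∧ x = val N h a b c

/-- the Frobenius number -/
def frob (N : ℤ) : ℤ := val N (2 * N - 1) (N - 1) (N - 1) (2 * N)

/-- the pseudo-Frobenius numbers other than the Frobenius number -/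
def Hole (N x : ℤ) : Prop :=
  ∃ j : ℤ, 0 ≤ j ∧ j < N ∧ (x = val N (N - 1) (N - 1) N j ∨ x = val N (N - 1) N 0 j)

theorem inS_zero (N : ℤ) : InS N 0 :=
  ⟨0, 0, 0, 0, by simp [InQ], by simp [val]⟩

theorem inS_add {N x y : ℤ} (hx : InS N x) (hy : InS N y) : InS N (x + y) := by
  obtain ⟨h, a, b, c, hq, rfl⟩ := hx
  obtain ⟨h', a', b', c', hq', rfl⟩ := hy
  refine ⟨h + h', a + a', b + b', c + c', ?_, by simp only [val]; ring⟩
  simp only [InQ] at *
  omega

theorem val_nonneg {N h a b c : ℤ} (hN : 1 ≤ N) (hh : 0 ≤ h) (ha : 0 ≤ a) (hb : 0 ≤ b)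
    (hc : 0 ≤ c) : 0 ≤ val N h a b c := by
  unfold val
  have : 0 ≤ N := by omega
  positivity

theorem val_pos {N h a b c : ℤ} (hN : 1 ≤ N) (hh : 1 ≤ h) (ha : 0 ≤ a) (hb : 0 ≤ b)
    (hc : 0 ≤ c) : 0 < val N h a b c := by
  unfold val
  have : 0 < N := by omega
  have : 0 < h := by omega
  positivity

theorem inS_nonneg {N x : ℤ} (hN : 1 ≤ N) (hx : InS N x) : 0 ≤ x := by
  obtain ⟨h, a, b, c, hq, rfl⟩ := hx
  obtain ⟨h1, h2, h3, h4, h5, h6⟩ := hq
  exact val_nonneg hN (by omega) h1 h3 h5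

theorem frob_not_inS {N : ℤ} (hN : 1 ≤ N) : ¬ InS N (frob N) := by
  rintro ⟨h, a, b, c, ⟨h1, h2, h3, h4, h5, h6⟩, he⟩
  obtain ⟨i, rfl⟩ : ∃ i, h = 2 * N - 1 + i := ⟨h - (2 * N - 1), by ring⟩
  obtain ⟨j, rfl⟩ : ∃ j, a = N - 1 - N * i + j := ⟨a - (N - 1 - N * i), by ring⟩
  obtain ⟨k, rfl⟩ : ∃ k, b = N - 1 - N * j + k := ⟨b - (N - 1 - N * j), by ring⟩
  have hc : c = 2 * N - N * i - N * j - 2 * (N * k) - k := by
    simp only [frob, val] at he
    linear_combination -he
  have mono : ∀ t : ℤ, (1 ≤ t → N ≤ N * t ∧ t ≤ N * t) ∧ (t = 0 → N * t = 0) ∧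
      (t ≤ -1 → N * t ≤ -N ∧ N * t ≤ t) := by
    intro t
    refine ⟨fun ht => ⟨by nlinarith, by nlinarith⟩, fun ht => by simp [ht],
      fun ht => ⟨by nlinarith, by nlinarith⟩⟩
  have hi := mono i
  have hj := mono j
  have hk := mono k
  generalize N * i = Ni at *
  generalize N * j = Nj at *
  generalize N * k = Nk at *
  omega

theorem hole_add {N x s : ℤ} (hx : Hole N x) (hs : InS N s) (hs0 : s ≠ 0) :
    InS N (x + s) := by
  obtain ⟨h, a, b, c, ⟨h1, h2, h3, h4, h5, h6⟩, rfl⟩ := hs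
  have hh : 1 ≤ h := by
    by_contra hh
    have e1 : h = 0 := by omega
    have e2 : a = 0 := by omega
    have e3 : b = 0 := by omega
    have e4 : c = 0 := by omega
    exact hs0 (by simp [val, e1, e2, e3, e4])
  obtain ⟨j, hj0, hj1, rfl | rfl⟩ := hx
  · by_cases hb : b ≤ h - 1
    · refine ⟨N - 1 + h, N - 1 + a, N + b, j + c, ?_, by simp only [val]; ring⟩
      simp only [InQ]; omega
    · refine ⟨N + h, a, b - 1, j + 1 + c, ?_, by simp only [val]; ring⟩
      simp only [InQ]; omega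
  · by_cases hb : a ≤ h - 1
    · refine ⟨N - 1 + h, N + a, b, j + c, ?_, by simp only [val]; ring⟩
      simp only [InQ]; omega
    · refine ⟨N + h, a - 1, N + b, j + c, ?_, by simp only [val]; ring⟩
      simp only [InQ]; omega

theorem hole_symm {N x : ℤ} (hx : Hole N x) : Hole N (frob N - x) := by
  obtain ⟨j, hj0, hj1, rfl | rfl⟩ := hx
  · exact ⟨N - 1 - j, by omega, by omega, Or.inr (by simp only [val, frob]; ring)⟩
  · exact ⟨N - 1 - j, by omega, by omega, Or.inl (by simp only [val, frob]; ring)⟩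

theorem hole_pos {N x : ℤ} (hN : 1 ≤ N) (hx : Hole N x) : 0 < x := by
  obtain ⟨j, hj0, hj1, rfl | rfl⟩ := hx
  · have := val_nonneg (N := N) (h := N - 1) (a := N - 1) (b := N - 1) (c := j) hN
      (by omega) (by omega) (by omega) hj0
    have e : val N (N - 1) (N - 1) N j = val N (N - 1) (N - 1) (N - 1) j + (2 * N + 1) := by
      simp only [val]; ring
    omega
  · have := val_nonneg (N := N) (h := N - 1) (a := N - 1) (b := N) (c := j) hN
      (by omega) (by omega) (by omega) hj0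
    have e : val N (N - 1) N 0 j = val N (N - 1) (N - 1) N j + N := by
      simp only [val]; ring
    omega

theorem hole_not_inS {N x : ℤ} (hN : 1 ≤ N) (hx : Hole N x) : ¬ InS N x := by
  intro hS
  have h1 := hole_add (hole_symm hx) hS (hole_pos hN hx).ne'
  rw [sub_add_cancel] at h1
  exact frob_not_inS hN h1

theorem digits {N : ℤ} (hN : 1 ≤ N) (x : ℤ) :
    ∃ h a b c : ℤ, x = val N h a b c ∧ 0 ≤ a ∧ a ≤ N ∧ 0 ≤ b ∧ b ≤ N ∧ 0 ≤ c ∧ c ≤ 2 * N ∧
      (b = N → c < N) ∧ (a = N → b = 0 ∧ c < N) := by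
  set d2 : ℤ := 2 * N + 1 with hd2
  set d1 : ℤ := N * d2 + N with hd1
  set g : ℤ := N * d1 + N with hg
  have p2 : 0 < d2 := by omega
  have p1 : 0 < d1 := by positivity
  have pg : 0 < g := by positivity
  set r := x % g with hr
  set r1 := r % d1 with hr1
  have e0 := Int.mul_ediv_add_emod x g
  have e1 := Int.mul_ediv_add_emod r d1
  have e2 := Int.mul_ediv_add_emod r1 d2
  have b0 := Int.emod_nonneg x pg.ne'
  have b0' := Int.emod_lt_of_pos x pg
  have b1 := Int.emod_nonneg r p1.ne'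
  have b1' := Int.emod_lt_of_pos r p1
  have b2 := Int.emod_nonneg r1 p2.ne'
  have b2' := Int.emod_lt_of_pos r1 p2
  rw [← hr] at e0 b0 b0'
  rw [← hr1] at e1 b1 b1'
  have a0 : 0 ≤ r / d1 := Int.ediv_nonneg b0 p1.le
  have a1 : 0 ≤ r1 / d2 := Int.ediv_nonneg b1 p2.le
  generalize x / g = h at *
  generalize r / d1 = a at *
  generalize r1 / d2 = b at *
  generalize r1 % d2 = c at *
  have hN1 : N ≤ d1 := by nlinarith
  have aN : a ≤ N := by
    by_contra hh
    have : d1 * (N + 1) ≤ d1 * a := mul_le_mul_of_nonneg_left (by omega) p1.le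
    nlinarith
  have bN : b ≤ N := by
    by_contra hh
    have : d2 * (N + 1) ≤ d2 * b := mul_le_mul_of_nonneg_left (by omega) p2.le
    nlinarith
  refine ⟨h, a, b, c, ?_, a0, aN, a1, bN, b2, by omega, ?_, ?_⟩
  · simp only [val]
    rw [← hd2, ← hd1, ← hg]
    linear_combination -e0 - e1 - e2
  · intro hb
    rw [hb] at e2
    nlinarith
  · intro ha
    rw [ha] at e1
    have hlt : r1 < N := by nlinarith
    have hb : b = 0 := by
      by_contra hh
      have : d2 * 1 ≤ d2 * b := mul_le_mul_of_nonneg_left (by omega) p2.le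
      omega
    rw [hb] at e2
    exact ⟨hb, by omega⟩

theorem cover {N : ℤ} (hN : 1 ≤ N) (x : ℤ) :
    InS N x ∨ InS N (frob N - x) ∨ Hole N x := by
  obtain ⟨h, a, b, c, rfl, h1, h2, h3, h4, h5, h6, h7, h8⟩ := digits hN x
  have key : InQ h a b c ∨ InQ (h - 1) (a + N) (b + 1) (c - N - 1) ∨
      InQ h (a - 1) (b + N + 1) (c - N - 1) ∨
      InQ (2 * N - 1 - h) (N - 1 - a) (N - 1 - b) (2 * N - c) ∨
      InQ (2 * N - 2 - h) (2 * N - 1 - a) (N - b) (N - 1 - c) ∨
      InQ (2 * N - 1 - h) (N - 2 - a) (2 * N - b) (N - 1 - c) ∨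
      (h = N - 1 ∧ a = N - 1 ∧ b = N) ∨ (h = N - 1 ∧ a = N ∧ b = 0) := by
    simp only [InQ]
    by_cases c1 : h < c
    · by_cases c2 : a = N
      · right; right; right; right; left; omega
      by_cases c3 : b = N
      · by_cases c4 : a ≤ N - 2
        · right; right; right; right; right; left; omega
        · right; right; right; right; left; omega
      by_cases c4 : N + a < h
      · right; left; omega
      by_cases c5 : N + b < h
      · right; right; left; omega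
      · right; right; right; left; omega
    by_cases c2 : h < a
    · by_cases c3 : h ≤ N - 2 + b
      · right; right; right; right; left; omega
      · right; right; right; right; right; right; right; omega
    by_cases c3 : h < b
    · by_cases c4 : a ≤ N - 2
      · right; right; right; right; right; left; omega
      · right; right; right; right; right; right; left; omega
    · left; omega
  rcases key with k | k | k | k | k | k | ⟨k1, k2, k3⟩ | ⟨k1, k2, k3⟩
  · exact Or.inl ⟨_, _, _, _, k, rfl⟩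
  · exact Or.inl ⟨_, _, _, _, k, by simp only [val]; ring⟩
  · exact Or.inl ⟨_, _, _, _, k, by simp only [val]; ring⟩
  · exact Or.inr (Or.inl ⟨_, _, _, _, k, by simp only [val, frob]; ring⟩)
  · exact Or.inr (Or.inl ⟨_, _, _, _, k, by simp only [val, frob]; ring⟩)
  · exact Or.inr (Or.inl ⟨_, _, _, _, k, by simp only [val, frob]; ring⟩)
  · exact Or.inr (Or.inr ⟨c, h5, by omega, Or.inl (by rw [k1, k2, k3])⟩)
  · exact Or.inr (Or.inr ⟨c, h5, by omega, Or.inr (by rw [k1, k2, k3])⟩)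

theorem inS_of_gt {N y : ℤ} (hN : 1 ≤ N) (hy : frob N < y) : InS N y := by
  rcases cover hN y with h | h | h
  · exact h
  · have := inS_nonneg hN h
    omega
  · have := hole_pos hN (hole_symm h)
    omega

theorem frob_nonneg {N : ℤ} (hN : 1 ≤ N) : 0 ≤ frob N :=
  val_nonneg hN (by omega) (by omega) (by omega) (by omega)

/-- an element that is not a sum of two nonzero elements is one of the eight generators -/
theorem irred {N s : ℤ} (hN : 1 ≤ N) (hs : InS N s) (hs0 : s ≠ 0)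
    (hirr : ¬ ∃ a b : ℤ, InS N a ∧ InS N b ∧ 0 < a ∧ 0 < b ∧ a + b = s) :
    ∃ a b c : Fin 2, s = val N 1 (a : ℕ) (b : ℕ) (c : ℕ) := by
  obtain ⟨h, a, b, c, ⟨h1, h2, h3, h4, h5, h6⟩, rfl⟩ := hs
  have hh : 1 ≤ h := by
    by_contra hh
    have e1 : h = 0 := by omega
    have e2 : a = 0 := by omega
    have e3 : b = 0 := by omega
    have e4 : c = 0 := by omega
    exact hs0 (by simp [val, e1, e2, e3, e4])
  by_cases hh2 : 2 ≤ h
  · exfalso
    apply hirr
    refine ⟨val N 1 (min a 1) (min b 1) (min c 1),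
      val N (h - 1) (a - min a 1) (b - min b 1) (c - min c 1),
      ⟨_, _, _, _, ?_, rfl⟩, ⟨_, _, _, _, ?_, rfl⟩, ?_, ?_, by simp only [val]; ring⟩
    · simp only [InQ]; omega
    · simp only [InQ]; omega
    · exact val_pos hN le_rfl (by omega) (by omega) (by omega)
    · exact val_pos hN (by omega) (by omega) (by omega) (by omega)
  · have e : h = 1 := by omega
    subst e
    refine ⟨⟨a.toNat, by omega⟩, ⟨b.toNat, by omega⟩, ⟨c.toNat, by omega⟩, ?_⟩
    simp only [Int.toNat_of_nonneg h1, Int.toNat_of_nonneg h3, Int.toNat_of_nonneg h5]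

/-- the semigroup as a set of natural numbers -/
def SG (N : ℤ) : Set ℕ := {x : ℕ | InS N (x : ℤ)}

theorem SG_compl_finite {N : ℤ} (hN : 1 ≤ N) : (SG N)ᶜ.Finite := by
  apply (Set.finite_Iic (frob N).toNat).subset
  intro x hx
  simp only [Set.mem_Iic]
  by_contra hh
  exact hx (inS_of_gt hN (by omega))

theorem SG_almost {N : ℤ} (hN : 1 ≤ N) (f : ℕ) (hf : f ∉ SG N) (hf' : ∀ y : ℕ, f < y → y ∈ SG N)
    (x : ℕ) (hx : x ≤ f) (hxS : x ∉ SG N) (hfx : f - x ∉ SG N) (s : ℕ) (hs : s ∈ SG N)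
    (hs0 : s ≠ 0) : x + s ∈ SG N := by
  have hF := frob_nonneg hN
  have e : (f : ℤ) = frob N := by
    apply le_antisymm
    · by_contra hh
      exact hf (inS_of_gt hN (by omega))
    · by_contra hh
      have h1 := hf' (frob N).toNat (by omega)
      simp only [SG, Set.mem_ofPred_eq, Int.toNat_of_nonneg hF] at h1
      exact frob_not_inS hN h1
  rcases cover hN (x : ℤ) with h | h | h
  · exact absurd h hxS
  · exfalso
    apply hfx
    simp only [SG, Set.mem_ofPred_eq]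
    rw [Nat.cast_sub hx, e]
    exact h
  · simp only [SG, Set.mem_ofPred_eq]
    push_cast
    exact hole_add h hs (by exact_mod_cast hs0)

theorem SG_gens {N : ℤ} (hN : 1 ≤ N) :
    {s : ℕ | s ∈ SG N ∧ s ≠ 0 ∧
      ¬ ∃ a ∈ SG N, ∃ b ∈ SG N, a ≠ 0 ∧ b ≠ 0 ∧ a + b = s}.ncard ≤ 8 := by
  have hsub : {s : ℕ | s ∈ SG N ∧ s ≠ 0 ∧
      ¬ ∃ a ∈ SG N, ∃ b ∈ SG N, a ≠ 0 ∧ b ≠ 0 ∧ a + b = s} ⊆
      (fun p : Fin 2 × Fin 2 × Fin 2 =>
        (val N 1 (p.1 : ℕ) (p.2.1 : ℕ) (p.2.2 : ℕ)).toNat) '' Set.univ := by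
    rintro s ⟨hs, hs0, hirr⟩
    obtain ⟨a, b, c, h⟩ := irred hN hs (by exact_mod_cast hs0) (by
      rintro ⟨a, b, ha, hb, ha0, hb0, hab⟩
      apply hirr
      refine ⟨a.toNat, ?_, b.toNat, ?_, by omega, by omega, by omega⟩
      · simp only [SG, Set.mem_ofPred_eq, Int.toNat_of_nonneg ha0.le]; exact ha
      · simp only [SG, Set.mem_ofPred_eq, Int.toNat_of_nonneg hb0.le]; exact hb)
    exact ⟨(a, b, c), Set.mem_univ _, by simp only [← h, Int.toNat_natCast]⟩
  calc _ ≤ _ := Set.ncard_le_ncard hsub (Set.finite_univ.image _)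
    _ ≤ (Set.univ : Set (Fin 2 × Fin 2 × Fin 2)).ncard := Set.ncard_image_le Set.finite_univ
    _ = 8 := by simp [Set.ncard_univ]

theorem SG_type (n : ℕ) (hn : 1 ≤ n) :
    n ≤ {x : ℕ | x ∉ SG n ∧ ∀ s ∈ SG n, s ≠ 0 → x + s ∈ SG n}.ncard := by
  have hN : (1 : ℤ) ≤ n := by exact_mod_cast hn
  have h0 : 0 ≤ val n (n - 1) n 0 0 := val_nonneg hN (by omega) (by omega) le_rfl le_rfl
  have hsub : (fun j : ℕ => (val n (n - 1) n 0 0).toNat + j) '' (Set.Iio n) ⊆
      {x : ℕ | x ∉ SG n ∧ ∀ s ∈ SG n, s ≠ 0 → x + s ∈ SG n} := by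
    rintro _ ⟨j, hj, rfl⟩
    have hj' : j < n := hj
    have hH : Hole n (((val n (n - 1) n 0 0).toNat + j : ℕ) : ℤ) := by
      refine ⟨j, by omega, by omega, Or.inr ?_⟩
      push_cast
      rw [Int.toNat_of_nonneg h0]
      simp only [val]; ring
    refine ⟨hole_not_inS hN hH, fun s hs hs0 => ?_⟩
    simp only [SG, Set.mem_ofPred_eq]
    rw [Nat.cast_add]
    exact hole_add hH hs (by exact_mod_cast hs0)
  have hfin : {x : ℕ | x ∉ SG n ∧ ∀ s ∈ SG n, s ≠ 0 → x + s ∈ SG n}.Finite :=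
    (SG_compl_finite hN).subset (fun x hx => hx.1)
  have := Set.ncard_le_ncard hsub hfin
  rwa [Set.ncard_image_of_injective _ (add_right_injective _), Set.ncard_Iio_nat] at this

end Pool.Agent.Lib.MP_d25c28_al
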